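import Pool.Agent.helper14.F3.Defs

/-!
# Volume preserving deformations: fields with prescribed volume changes
-/

open Set Metric MeasureTheory
open scoped ContDiff Topology

namespace Kusner.Def3

namespace D2aux

theorem exists_bump (ρ : ℝ) (hρ : 0 < ρ) : ∃ b : ℝ → ℝ, ContDiff ℝ ∞ b ∧ (∀ x, 0 ≤ b x) ∧
    0 < b 0 ∧ ∀ x, ρ ≤ |x| → b x = 0 := by
  let f : ContDiffBump (0 : ℝ) := ⟨ρ / 2, ρ, by positivity, by linarith⟩
  refine ⟨f, f.contDiff, fun x => f.nonneg, ?_, fun x hx => ?_⟩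
  · have : f 0 = 1 := f.one_of_mem_closedBall (by
      rw [mem_closedBall, dist_self]; exact le_of_lt (by show 0 < ρ / 2; positivity))
    rw [this]; exact one_pos
  · exact f.zero_of_le_dist (by rw [Real.dist_eq, sub_zero]; exact hx)

theorem exists_prim {b : ℝ → ℝ} (hb : ContDiff ℝ ∞ b) {ρ : ℝ} (hρ : 0 < ρ)
    (h0 : ∀ x, ρ ≤ |x| → b x = 0) : ∃ H : ℝ → ℝ, ContDiff ℝ ∞ H ∧ (∀ x, HasDerivAt H (b x) x) ∧
      (∀ x, ρ ≤ x → H x = H ρ) ∧ ∀ x, x ≤ -ρ → H x = H (-ρ) := by
  have hc : Continuous b := hb.continuous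
  have hd : ∀ x, HasDerivAt (fun x => ∫ t in (0 : ℝ)..x, b t) (b x) x := fun x =>
    (hc.integral_hasStrictDerivAt 0 x).hasDerivAt
  have hdd : deriv (fun x => ∫ t in (0 : ℝ)..x, b t) = b := funext fun x => (hd x).deriv
  refine ⟨fun x => ∫ t in (0 : ℝ)..x, b t, ?_, hd, fun x hx => ?_, fun x hx => ?_⟩
  · rw [contDiff_infty_iff_deriv, hdd]
    exact ⟨fun x => (hd x).differentiableAt, hb⟩
  · have h1 := intervalIntegral.integral_add_adjacent_intervals
      (hc.intervalIntegrable (μ := volume) 0 ρ) (hc.intervalIntegrable (μ := volume) ρ x)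
    have h2 : ∫ t in ρ..x, b t = 0 := by
      rw [intervalIntegral.integral_congr (g := fun _ => (0 : ℝ)) (fun t ht => ?_)]
      · simp
      · rw [uIcc_of_le hx] at ht
        exact h0 t (le_trans ht.1 (le_abs_self t))
    simp only
    rw [← h1, h2, add_zero]
  · have h1 := intervalIntegral.integral_add_adjacent_intervals
      (hc.intervalIntegrable (μ := volume) 0 (-ρ)) (hc.intervalIntegrable (μ := volume) (-ρ) x)
    have h2 : ∫ t in (-ρ)..x, b t = 0 := by
      rw [intervalIntegral.integral_congr (g := fun _ => (0 : ℝ)) (fun t ht => ?_)]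
      · simp
      · rw [uIcc_of_ge hx] at ht
        exact h0 t (by rw [abs_of_nonpos (by linarith [ht.2])]; linarith [ht.2])
    simp only
    rw [← h1, h2, add_zero]

/-- first unit vector -/
noncomputable def e0 : E3 := EuclideanSpace.single 0 1

/-- the scalar function -/
noncomputable def g (b H : ℝ → ℝ) (p : E3) (L : ℝ) (x : E3) : ℝ :=
  b (x 1 - p 1) * b (x 2 - p 2) * (H (x 0 - p 0) - H (x 0 - p 0 - L))

/-- the vector field -/
noncomputable def Yf (b H : ℝ → ℝ) (p : E3) (L : ℝ) (x : E3) : E3 := g b H p L x • e0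

theorem contDiff_coord (i : Fin 3) : ContDiff ℝ ∞ (fun x : E3 => x i) := by
  fun_prop

theorem contDiff_g {b H : ℝ → ℝ} (hb : ContDiff ℝ ∞ b) (hH : ContDiff ℝ ∞ H) (p : E3) (L : ℝ) :
    ContDiff ℝ ∞ (g b H p L) := by
  have h1 : ContDiff ℝ ∞ (fun x : E3 => b (x 1 - p 1)) :=
    hb.comp ((contDiff_coord 1).sub contDiff_const)
  have h2 : ContDiff ℝ ∞ (fun x : E3 => b (x 2 - p 2)) :=
    hb.comp ((contDiff_coord 2).sub contDiff_const)
  have h3 : ContDiff ℝ ∞ (fun x : E3 => H (x 0 - p 0)) :=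
    hH.comp ((contDiff_coord 0).sub contDiff_const)
  have h4 : ContDiff ℝ ∞ (fun x : E3 => H (x 0 - p 0 - L)) :=
    hH.comp (((contDiff_coord 0).sub contDiff_const).sub contDiff_const)
  exact (h1.mul h2).mul (h3.sub h4)

theorem tr_Yf {b H : ℝ → ℝ} (hb : ContDiff ℝ ∞ b) (hH : ContDiff ℝ ∞ H)
    (hd : ∀ x, HasDerivAt H (b x) x) (p : E3) (L : ℝ) (x : E3) :
    tr (fderiv ℝ (Yf b H p L) x) =
      b (x 1 - p 1) * b (x 2 - p 2) * (b (x 0 - p 0) - b (x 0 - p 0 - L)) := by
  have hg : DifferentiableAt ℝ (g b H p L) x :=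
    (contDiff_g hb hH p L).differentiable (by simp) x
  have h1 : fderiv ℝ (Yf b H p L) x = (fderiv ℝ (g b H p L) x).smulRight e0 :=
    fderiv_smul_const hg e0
  have h2 : tr (fderiv ℝ (Yf b H p L) x) = fderiv ℝ (g b H p L) x e0 := by
    rw [h1]
    exact LinearMap.trace_smulRight (fderiv ℝ (g b H p L) x).toLinearMap e0
  rw [h2, ← hg.lineDeriv_eq_fderiv]
  have h3 : HasDerivAt (fun t : ℝ => g b H p L (x + t • e0))
      (b (x 1 - p 1) * b (x 2 - p 2) * (b (x 0 - p 0) - b (x 0 - p 0 - L))) 0 := by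
    have e : (fun t : ℝ => g b H p L (x + t • e0)) = fun t : ℝ =>
        b (x 1 - p 1) * b (x 2 - p 2) * (H (t + (x 0 - p 0)) - H (t + (x 0 - p 0 - L))) := by
      funext t
      have c0 : (x + t • e0) 0 = x 0 + t := by simp [e0]
      have c1 : (x + t • e0) 1 = x 1 := by simp [e0]
      have c2 : (x + t • e0) 2 = x 2 := by simp [e0]
      simp only [g, c0, c1, c2]
      congr 3 <;> ring
    rw [e]
    refine HasDerivAt.const_mul _ (HasDerivAt.sub ?_ ?_)
    · have := hd (0 + (x 0 - p 0))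
      rw [zero_add] at this
      have h5 := HasDerivAt.comp_add_const (0 : ℝ) (x 0 - p 0) (f := H) (f' := b (x 0 - p 0))
        (by rw [zero_add]; exact this)
      exact h5
    · have := hd (0 + (x 0 - p 0 - L))
      rw [zero_add] at this
      have h5 := HasDerivAt.comp_add_const (0 : ℝ) (x 0 - p 0 - L) (f := H)
        (f' := b (x 0 - p 0 - L)) (by rw [zero_add]; exact this)
      exact h5
  exact h3.deriv

theorem compact_Yf {b H : ℝ → ℝ} {ρ : ℝ} (hρ : 0 < ρ) (h0 : ∀ x, ρ ≤ |x| → b x = 0)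
    (hr : ∀ x, ρ ≤ x → H x = H ρ) (hl : ∀ x, x ≤ -ρ → H x = H (-ρ)) (p : E3) {L : ℝ}
    (hL : 0 ≤ L) : HasCompactSupport (Yf b H p L) := by
  refine HasCompactSupport.of_support_subset_isCompact (isCompact_closedBall p (L + 3 * ρ)) ?_
  intro x hx
  have hg : g b H p L x ≠ 0 := by
    intro h
    exact hx (by simp [Yf, h])
  have h1 : |x 1 - p 1| < ρ := by
    by_contra h
    exact hg (by simp [g, h0 _ (not_lt.mp h)])
  have h2 : |x 2 - p 2| < ρ := by
    by_contra h
    exact hg (by simp [g, h0 _ (not_lt.mp h)])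
  have h3 : -ρ < x 0 - p 0 := by
    by_contra h
    have h := not_lt.mp h
    exact hg (by simp [g, hl _ h, hl (x 0 - p 0 - L) (by linarith)])
  have h4 : x 0 - p 0 < L + ρ := by
    by_contra h
    have h := not_lt.mp h
    exact hg (by simp [g, hr (x 0 - p 0) (by linarith), hr (x 0 - p 0 - L) (by linarith)])
  have h5 : |x 0 - p 0| ≤ L + ρ := abs_le.mpr ⟨by linarith, by linarith⟩
  rw [mem_closedBall, EuclideanSpace.dist_eq, Real.sqrt_le_iff]
  refine ⟨by linarith, ?_⟩
  simp only [Fin.sum_univ_three, Real.dist_eq]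
  have a0 := abs_nonneg (x 0 - p 0)
  have a1 := abs_nonneg (x 1 - p 1)
  have a2 := abs_nonneg (x 2 - p 2)
  nlinarith [mul_nonneg a0 a1, mul_nonneg a0 a2, mul_nonneg a1 a2]

theorem dist_lt_of_coord {r : ℝ} (hr : 0 < r) {x p : E3} (h : ∀ i, |x i - p i| < r / 2) :
    dist x p < r := by
  rw [EuclideanSpace.dist_eq, Real.sqrt_lt' hr]
  simp only [Fin.sum_univ_three, Real.dist_eq]
  have key : ∀ i, |x i - p i| ^ 2 ≤ (r / 2) ^ 2 := fun i =>
    pow_le_pow_left₀ (abs_nonneg _) (h i).le 2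
  have := key 0
  have := key 1
  have := key 2
  nlinarith [mul_pos hr hr]

end D2aux

open D2aux

/-- D2 -/
theorem exists_fields {k : ℕ} (Ω : Fin k → Set E3) (ho : ∀ i, IsOpen (Ω i))
    (hb : ∀ i, Bornology.IsBounded (Ω i)) (hne : ∀ i, (Ω i).Nonempty)
    (hd : Pairwise fun i j => Disjoint (Ω i) (Ω j)) :
    ∃ (Y : Fin k → E3 → E3) (c : Fin k → ℝ), (∀ j, ContDiff ℝ ∞ (Y j)) ∧
      (∀ j, HasCompactSupport (Y j)) ∧ (∀ j, 0 < c j) ∧
      ∀ i j, ∫ x in Ω i, tr (fderiv ℝ (Y j) x) = if i = j then c j else 0 := by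
  classical
  -- a common bound
  have hR : ∃ R : ℝ, 0 < R ∧ ∀ i, ∀ x ∈ Ω i, ‖x‖ ≤ R := by
    have hU : Bornology.IsBounded (⋃ i, Ω i) := (Bornology.isBounded_iUnion).mpr hb
    obtain ⟨R, hR⟩ := hU.exists_norm_le
    exact ⟨max R 1, lt_max_of_lt_right one_pos, fun i x hx =>
      (hR x (mem_iUnion.mpr ⟨i, hx⟩)).trans (le_max_left _ _)⟩
  obtain ⟨R, hR0, hR⟩ := hR
  choose p hp using hne
  have hball : ∀ j, ∃ r > 0, ball (p j) r ⊆ Ω j := fun j =>
    Metric.isOpen_iff.mp (ho j) (p j) (hp j)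
  choose r hr0 hr using hball
  have hbump : ∀ j, ∃ b : ℝ → ℝ, ContDiff ℝ ∞ b ∧ (∀ x, 0 ≤ b x) ∧
    0 < b 0 ∧ ∀ x, r j / 2 ≤ |x| → b x = 0 := fun j => exists_bump (r j / 2) (by linarith [hr0 j])
  choose b hbs hbn hb0 hbz using hbump
  have hprim : ∀ j, ∃ H : ℝ → ℝ, ContDiff ℝ ∞ H ∧ (∀ x, HasDerivAt H (b j x) x) ∧
      (∀ x, r j / 2 ≤ x → H x = H (r j / 2)) ∧ ∀ x, x ≤ -(r j / 2) → H x = H (-(r j / 2)) :=
    fun j => exists_prim (hbs j) (by linarith [hr0 j]) (hbz j)
  choose H hHs hHd hHr hHl using hprim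
  let L : Fin k → ℝ := fun j => 2 * R + r j
  have hL : ∀ j, 0 ≤ L j := fun j => by
    show 0 ≤ 2 * R + r j
    linarith [hr0 j]
  have hcoord : ∀ (x : E3) (i : Fin 3), |x i| ≤ ‖x‖ := fun x i => by
    have := EuclideanSpace.norm_eq x
    have h2 : ‖x i‖ ≤ ‖x‖ := PiLp.norm_apply_le x i
    simpa using h2
  -- the second bump vanishes on all the sets
  have hsec : ∀ j i, ∀ x ∈ Ω i, b j (x 0 - p j 0 - L j) = 0 := by
    intro j i x hx
    apply hbz
    have h1 := (abs_le.mp ((hcoord x 0).trans (hR i x hx))).2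
    have h2 := (abs_le.mp ((hcoord (p j) 0).trans (hR j (p j) (hp j)))).1
    have : x 0 - p j 0 - L j ≤ -(r j) := by
      show x 0 - p j 0 - (2 * R + r j) ≤ -(r j)
      linarith
    rw [abs_of_nonpos (by linarith [hr0 j])]
    linarith [hr0 j]
  have htr : ∀ j x, tr (fderiv ℝ (Yf (b j) (H j) (p j) (L j)) x) =
      b j (x 1 - p j 1) * b j (x 2 - p j 2) * (b j (x 0 - p j 0) - b j (x 0 - p j 0 - L j)) :=
    fun j x => tr_Yf (hbs j) (hHs j) (hHd j) (p j) (L j) x
  have htr' : ∀ j i, ∀ x ∈ Ω i, tr (fderiv ℝ (Yf (b j) (H j) (p j) (L j)) x) =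
      b j (x 1 - p j 1) * b j (x 2 - p j 2) * b j (x 0 - p j 0) := by
    intro j i x hx
    rw [htr, hsec j i x hx, sub_zero]
  refine ⟨fun j => Yf (b j) (H j) (p j) (L j),
    fun j => ∫ x in Ω j, tr (fderiv ℝ (Yf (b j) (H j) (p j) (L j)) x), fun j => ?_, fun j => ?_,
    fun j => ?_, fun i j => ?_⟩
  · exact (contDiff_g (hbs j) (hHs j) (p j) (L j)).smul contDiff_const
  · exact compact_Yf (by linarith [hr0 j]) (hbz j) (hHr j) (hHl j) (p j) (hL j)
  · have hcont : Continuous (fun x : E3 => tr (fderiv ℝ (Yf (b j) (H j) (p j) (L j)) x)) := by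
      simp_rw [htr]
      have hbc := (hbs j).continuous
      have hx : ∀ i : Fin 3, Continuous (fun x : E3 => x i) := fun i =>
        (contDiff_coord i).continuous
      exact ((hbc.comp ((hx 1).sub continuous_const)).mul
        (hbc.comp ((hx 2).sub continuous_const))).mul
        ((hbc.comp ((hx 0).sub continuous_const)).sub
        (hbc.comp (((hx 0).sub continuous_const).sub continuous_const)))
    have hint : IntegrableOn (fun x : E3 => tr (fderiv ℝ (Yf (b j) (H j) (p j) (L j)) x)) (Ω j) :=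
      (hcont.locallyIntegrable.integrableOn_isCompact (isCompact_closedBall 0 R)).mono_set
        fun x hx => mem_closedBall_zero_iff.mpr (hR j x hx)
    rw [setIntegral_pos_iff_support_of_nonneg_ae ?_ hint]
    · have hopen : IsOpen (Function.support
          (fun x : E3 => tr (fderiv ℝ (Yf (b j) (H j) (p j) (L j)) x)) ∩ Ω j) :=
        hcont.isOpen_support.inter (ho j)
      refine hopen.measure_pos volume ⟨p j, ?_, hp j⟩
      rw [Function.mem_support, htr' j j (p j) (hp j), sub_self, sub_self, sub_self]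
      exact (mul_pos (mul_pos (hb0 j) (hb0 j)) (hb0 j)).ne'
    · refine (ae_restrict_iff' (ho j).measurableSet).mpr (Filter.Eventually.of_forall fun x hx => ?_)
      show 0 ≤ tr (fderiv ℝ (Yf (b j) (H j) (p j) (L j)) x)
      rw [htr' j j x hx]
      exact mul_nonneg (mul_nonneg (hbn j _) (hbn j _)) (hbn j _)
  · by_cases hij : i = j
    · subst hij
      rw [if_pos rfl]
    · rw [if_neg hij]
      refine setIntegral_eq_zero_of_forall_eq_zero fun x hx => ?_
      rw [htr' j i x hx]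
      by_contra hne0
      have h1 : |x 1 - p j 1| < r j / 2 := by
        by_contra h
        exact hne0 (by rw [hbz j _ (not_lt.mp h)]; ring)
      have h2 : |x 2 - p j 2| < r j / 2 := by
        by_contra h
        exact hne0 (by rw [hbz j _ (not_lt.mp h)]; ring)
      have h3 : |x 0 - p j 0| < r j / 2 := by
        by_contra h
        exact hne0 (by rw [hbz j _ (not_lt.mp h)]; ring)
      have h4 : x ∈ Ω j := hr j (mem_ball.mpr (dist_lt_of_coord (hr0 j) (fun l => by
        fin_cases l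
        · exact h3
        · exact h1
        · exact h2)))
      exact (Set.disjoint_left.mp (hd hij)) hx h4

end Kusner.Def3
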